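import Pool.Agent.W951.BP.Stm
import Pool.Agent.H820R3.AC.T4c

/-!
Project BP (helper951), task BP-PP (helper397): Razborov-Smolensky approximation of circuits with
constant error at the output gate.
-/

namespace Pool.Agent.W397.BP

open H746R3.Inv Finset Pool.Agent.H820R3.AC

variable {p : ℕ} [Fact p.Prime] {V : Type} [DecidableEq V]

/-- the deterministic core: if no test fails, the polynomial is correct -/
theorem core {I : Type} (C : Circuit I Unit) (h ℓ ℓ₀ : ℕ) (hℓ : 1 ≤ ℓ) (hℓ₀ : 1 ≤ ℓ₀)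
    (hC : C.DepthLE (h + 1)) (hw : ∀ g, ¬ (C.kind g).IsWild) (inp : I → (V → Bool) → Bool)
    (hinp : ∀ i, (fun y => (bK (inp i y) : ZMod p)) ∈ LD (ZMod p) V 1)
    (g₀ : Fin C.G) (b₀ : Bool) (ho : C.out () = (b₀, Sum.inr g₀))
    (ω : (g : Fin C.G) → Fin ℓ → Fin (C.wires g).length → ZMod p)
    (a : Fin ℓ₀ → Fin (C.wires g₀).length → ZMod p) :
    ∃ Q ∈ LD (ZMod p) V (ℓ₀ * (p - 1) * (ℓ * (p - 1)) ^ h),
      ∀ y, (∀ g, ¬ ((crit (C.kind g) (bits p C inp g y)).Nonempty ∧
          ∀ k, ∑ i ∈ crit (C.kind g) (bits p C inp g y), ω g k i = 0)) →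
        ¬ ((crit (C.kind g₀) (bits p C inp g₀ y)).Nonempty ∧
          ∀ k, ∑ i ∈ crit (C.kind g₀) (bits p C inp g₀ y), a k i = 0) →
        Q y = bK (C.wire (fun i => inp i y) (C.run p fun i => inp i y) (C.out ())) := by
  have hp : 1 < p := (Fact.out : p.Prime).one_lt
  have hD₀ : 1 ≤ ℓ * (p - 1) := Nat.mul_pos hℓ (by omega)
  obtain ⟨P, hP, hrun⟩ := gates_prob C ℓ hℓ hw inp hinp ω (C.level g₀)
  set q : (V → Bool) → ZMod p := gpoly (C.kind g₀) a
    (fun i => wireFn inp P ((C.wires g₀).get i)) with hq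
  have hqm : q ∈ LD (ZMod p) V (ℓ₀ * ((p - 1) * (ℓ * (p - 1)) ^ C.level g₀)) := by
    refine gpoly_mem hℓ₀ (C.kind g₀) a _ ?_
    intro i
    refine wireFn_mem inp hinp P _ (Nat.one_le_pow _ _ hD₀) _ ?_
    intro g' hg'
    have h2 : C.level g' < C.level g₀ := by
      refine C.level_lt g₀ ((C.wires g₀).get i).1 g' ?_
      rw [← hg']
      exact List.get_mem _ _
    exact LD_mono (Nat.pow_le_pow_right hD₀ h2) (hP g' h2)
  have hlev : C.level g₀ ≤ h := Nat.lt_succ_iff.1 (hC g₀)
  have hqm' : q ∈ LD (ZMod p) V (ℓ₀ * (p - 1) * (ℓ * (p - 1)) ^ h) := by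
    refine LD_mono ?_ hqm
    rw [← mul_assoc]
    exact Nat.mul_le_mul_left _ (Nat.pow_le_pow_right hD₀ hlev)
  refine ⟨wireFn inp (fun _ => q) (C.out ()), ?_, ?_⟩
  · refine wireFn_mem inp hinp _ _ ?_ _ ?_
    · exact Nat.mul_pos (Nat.mul_pos hℓ₀ (by omega)) (Nat.one_le_pow _ _ hD₀)
    · intro g _
      exact hqm'
  · intro y hy hy0
    refine wireFn_val C inp (fun _ => q) y _ _ ?_
    intro g hg
    have hgg : g = g₀ := by
      rw [ho] at hg
      exact (Sum.inr.inj hg).symm
    subst hgg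
    have hold := hrun y hy
    set v := C.run p (fun i => inp i y) with hv
    have hvr : C.IsRun p (fun i => inp i y) v := C.run_isRun p _
    have hmap : List.ofFn (bits p C inp g y) =
        (C.wires g).map (C.wire (fun i => inp i y) v) := by
      conv_rhs => rw [← List.ofFn_get (C.wires g), List.map_ofFn]
      rfl
    rw [hq, gpoly_val (C.kind g) (hw g) a _ y (bits p C inp g y) ?_ hy0, hmap, ← hvr g]
    intro i
    refine wireFn_val C inp P y v _ ?_
    intro g' hg'
    have h2 : C.level g' < C.level g := by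
      refine C.level_lt g ((C.wires g).get i).1 g' ?_
      rw [← hg']
      exact List.get_mem _ _
    exact hold g' h2

theorem pp_core [Fintype V] {I : Type} (C : Circuit I Unit) (h ℓ ℓ₀ : ℕ) (hℓ : 1 ≤ ℓ)
    (hℓ₀ : 1 ≤ ℓ₀) (hC : C.DepthLE (h + 1)) (hw : ∀ g, ¬ (C.kind g).IsWild)
    (inp : I → (V → Bool) → Bool)
    (hinp : ∀ i, (fun y => (bK (inp i y) : ZMod p)) ∈ LD (ZMod p) V 1) :
    ∃ Q ∈ LD (ZMod p) V (ℓ₀ * (p - 1) * (ℓ * (p - 1)) ^ h),
      ∀ S : Finset (V → Bool), (∀ y ∈ S, ¬ Q y =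
        bK (C.wire (fun i => inp i y) (C.run p fun i => inp i y) (C.out ()))) →
      (S.card : ℝ) ≤ (C.G / (p : ℝ) ^ ℓ + 1 / (p : ℝ) ^ ℓ₀) * 2 ^ Fintype.card V := by
  classical
  have hp : 1 < p := (Fact.out : p.Prime).one_lt
  have hp0 : (0 : ℝ) < p := by exact_mod_cast (by omega : 0 < p)
  have hD₀ : 1 ≤ ℓ * (p - 1) := Nat.mul_pos hℓ (by omega)
  have : NeZero p := ⟨by omega⟩
  obtain ⟨⟨b₀, src⟩, ho⟩ : ∃ w, w = C.out () := ⟨_, rfl⟩
  rcases src with i₀ | g₀
  · -- the output is an input
    refine ⟨wireFn inp (fun _ => 0) (C.out ()), ?_, ?_⟩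
    · refine wireFn_mem inp hinp _ _ ?_ _ ?_
      · exact Nat.mul_pos (Nat.mul_pos hℓ₀ (by omega)) (Nat.one_le_pow _ _ hD₀)
      · intro g _
        exact Submodule.zero_mem _
    · intro S hS
      have hempty : S = ∅ := by
        rw [Finset.eq_empty_iff_forall_notMem]
        intro y hy
        refine hS y hy ?_
        refine wireFn_val C inp (fun _ => 0) y _ _ ?_
        intro g hg
        rw [← ho] at hg
        exact absurd hg (by simp)
      rw [hempty, Finset.card_empty, Nat.cast_zero]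
      positivity
  · let Ω : Type := ((g : Fin C.G) → Fin ℓ → Fin (C.wires g).length → ZMod p) ×
      (Fin ℓ₀ → Fin (C.wires g₀).length → ZMod p)
    choose Q hQ hrun using fun (ω : Ω) =>
      core C h ℓ ℓ₀ hℓ hℓ₀ hC hw inp hinp g₀ b₀ ho.symm ω.1 ω.2
    set κ : ℝ := C.G / (p : ℝ) ^ ℓ + 1 / (p : ℝ) ^ ℓ₀ with hκ
    set tru : (V → Bool) → ZMod p := fun y =>
      bK (C.wire (fun i => inp i y) (C.run p fun i => inp i y) (C.out ())) with htru
    -- failure probability at a point
    have hpt : ∀ y, ((univ.filter fun ω : Ω => ¬ Q ω y = tru y).card : ℝ) ≤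
        κ * Fintype.card Ω := by
      intro y
      set B : (g : Fin C.G) → Finset (Fin ℓ → Fin (C.wires g).length → ZMod p) := fun g =>
        univ.filter fun a => (crit (C.kind g) (bits p C inp g y)).Nonempty ∧
            ∀ k, ∑ i ∈ crit (C.kind g) (bits p C inp g y), a k i = 0 with hB
      set B0 : Finset (Fin ℓ₀ → Fin (C.wires g₀).length → ZMod p) :=
        univ.filter fun a => (crit (C.kind g₀) (bits p C inp g₀ y)).Nonempty ∧
            ∀ k, ∑ i ∈ crit (C.kind g₀) (bits p C inp g₀ y), a k i = 0 with hB0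
      have hBc : ∀ g, (B g).card * p ^ ℓ ≤
          Fintype.card (Fin ℓ → Fin (C.wires g).length → ZMod p) := by
        intro g
        by_cases hne : (crit (C.kind g) (bits p C inp g y)).Nonempty
        · refine le_trans (Nat.mul_le_mul_right _ (Finset.card_le_card ?_)) (count_rows ℓ _ hne)
          intro a ha
          exact Finset.mem_filter.2 ⟨Finset.mem_univ _, (Finset.mem_filter.1 ha).2.2⟩
        · have : B g = ∅ := by
            rw [Finset.eq_empty_iff_forall_notMem]
            intro a ha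
            exact hne (Finset.mem_filter.1 ha).2.1
          rw [this]
          simp
      have hB0c : B0.card * p ^ ℓ₀ ≤
          Fintype.card (Fin ℓ₀ → Fin (C.wires g₀).length → ZMod p) := by
        by_cases hne : (crit (C.kind g₀) (bits p C inp g₀ y)).Nonempty
        · refine le_trans (Nat.mul_le_mul_right _ (Finset.card_le_card ?_)) (count_rows ℓ₀ _ hne)
          intro a ha
          exact Finset.mem_filter.2 ⟨Finset.mem_univ _, (Finset.mem_filter.1 ha).2.2⟩
        · have : B0 = ∅ := by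
            rw [Finset.eq_empty_iff_forall_notMem]
            intro a ha
            exact hne (Finset.mem_filter.1 ha).2.1
          rw [this]
          simp
      set X : Finset ((g : Fin C.G) → Fin ℓ → Fin (C.wires g).length → ZMod p) :=
        univ.biUnion fun g => univ.filter fun ω => ω g ∈ B g with hX
      have hXc : X.card * p ^ ℓ ≤ C.G *
          Fintype.card ((g : Fin C.G) → Fin ℓ → Fin (C.wires g).length → ZMod p) :=
        union_bound (fun g : Fin C.G => Fin ℓ → Fin (C.wires g).length → ZMod p) B X (p ^ ℓ)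
          hBc (Finset.Subset.refl _)
      have hsub : ∀ ω : Ω, ω ∈ (univ.filter fun ω : Ω => ¬ Q ω y = tru y) →
          ω ∈ (X ×ˢ univ) ∪ (univ ×ˢ B0) := by
        intro ω hω
        by_contra hcon
        rw [Finset.mem_union, not_or] at hcon
        refine (Finset.mem_filter.1 hω).2 (hrun ω y ?_ ?_)
        · intro g hg
          refine hcon.1 (Finset.mem_product.2 ⟨?_, Finset.mem_univ _⟩)
          exact Finset.mem_biUnion.2 ⟨g, Finset.mem_univ _, Finset.mem_filter.2
            ⟨Finset.mem_univ _, Finset.mem_filter.2 ⟨Finset.mem_univ _, hg⟩⟩⟩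
        · intro hg
          exact hcon.2 (Finset.mem_product.2 ⟨Finset.mem_univ _,
            Finset.mem_filter.2 ⟨Finset.mem_univ _, hg⟩⟩)
      have hcard0 : (univ.filter fun ω : Ω => ¬ Q ω y = tru y).card ≤
          ((X ×ˢ univ) ∪ (univ ×ˢ B0)).card :=
        Finset.card_le_card_of_injOn id (fun ω hω => hsub ω hω) (fun _ _ _ _ h => h)
      have hcard := hcard0.trans (Finset.card_union_le _ _)
      rw [Finset.card_product, Finset.card_product, Finset.card_univ, Finset.card_univ] at hcard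
      have hcardR : ((univ.filter fun ω : Ω => ¬ Q ω y = tru y).card : ℝ) ≤
          (X.card : ℝ) * Fintype.card (Fin ℓ₀ → Fin (C.wires g₀).length → ZMod p) +
          Fintype.card ((g : Fin C.G) → Fin ℓ → Fin (C.wires g).length → ZMod p) * B0.card := by
        exact_mod_cast hcard
      have e1 : (X.card : ℝ) ≤ C.G / (p : ℝ) ^ ℓ *
          Fintype.card ((g : Fin C.G) → Fin ℓ → Fin (C.wires g).length → ZMod p) := by
        have : (X.card : ℝ) * (p : ℝ) ^ ℓ ≤ C.G *
          Fintype.card ((g : Fin C.G) → Fin ℓ → Fin (C.wires g).length → ZMod p) := by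
          exact_mod_cast hXc
        rw [div_mul_eq_mul_div, le_div_iff₀ (by positivity)]
        exact this
      have e2 : (B0.card : ℝ) ≤ 1 / (p : ℝ) ^ ℓ₀ *
          Fintype.card (Fin ℓ₀ → Fin (C.wires g₀).length → ZMod p) := by
        have : (B0.card : ℝ) * (p : ℝ) ^ ℓ₀ ≤
          Fintype.card (Fin ℓ₀ → Fin (C.wires g₀).length → ZMod p) := by
          exact_mod_cast hB0c
        rw [div_mul_eq_mul_div, le_div_iff₀ (by positivity), one_mul]
        exact this
      have hΩc : (Fintype.card Ω : ℝ) =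
          Fintype.card ((g : Fin C.G) → Fin ℓ → Fin (C.wires g).length → ZMod p) *
          Fintype.card (Fin ℓ₀ → Fin (C.wires g₀).length → ZMod p) := by
        have h0 : Fintype.card Ω =
          Fintype.card ((g : Fin C.G) → Fin ℓ → Fin (C.wires g).length → ZMod p) *
          Fintype.card (Fin ℓ₀ → Fin (C.wires g₀).length → ZMod p) := by
          rw [← Fintype.card_prod]
        rw [h0]
        push_cast
        ring
      rw [hΩc, hκ]
      refine hcardR.trans ?_
      have n1 : (0 : ℝ) ≤ Fintype.card (Fin ℓ₀ → Fin (C.wires g₀).length → ZMod p) := by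
        positivity
      have n2 : (0 : ℝ) ≤ Fintype.card ((g : Fin C.G) → Fin ℓ → Fin (C.wires g).length → ZMod p) := by
        positivity
      have e3 := mul_le_mul_of_nonneg_right e1 n1
      have e4 := mul_le_mul_of_nonneg_left e2 n2
      linarith
    -- averaging
    have hsum : ∑ ω : Ω, ((univ.filter fun y => ¬ Q ω y = tru y).card : ℝ) ≤
        ∑ _ω : Ω, κ * 2 ^ Fintype.card V := by
      have hswap : ∑ ω : Ω, ((univ.filter fun y => ¬ Q ω y = tru y).card : ℝ) =
          ∑ y : V → Bool, ((univ.filter fun ω : Ω => ¬ Q ω y = tru y).card : ℝ) := by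
        have h1 : ∀ ω : Ω, ((univ.filter fun y => ¬ Q ω y = tru y).card : ℝ) =
            ∑ y : V → Bool, if ¬ Q ω y = tru y then (1 : ℝ) else 0 := by
          intro ω
          rw [Finset.card_filter]
          push_cast
          rfl
        have h2 : ∀ y : V → Bool, ((univ.filter fun ω : Ω => ¬ Q ω y = tru y).card : ℝ) =
            ∑ ω : Ω, if ¬ Q ω y = tru y then (1 : ℝ) else 0 := by
          intro y
          rw [Finset.card_filter]
          push_cast
          rfl
        simp only [h1, h2]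
        exact Finset.sum_comm
      rw [hswap]
      calc ∑ y : V → Bool, ((univ.filter fun ω : Ω => ¬ Q ω y = tru y).card : ℝ)
          ≤ ∑ _y : V → Bool, κ * Fintype.card Ω := Finset.sum_le_sum fun y _ => hpt y
        _ = ∑ _ω : Ω, κ * 2 ^ Fintype.card V := by
            rw [Finset.sum_const, Finset.sum_const, nsmul_eq_mul, nsmul_eq_mul, Finset.card_univ,
              Finset.card_univ, Fintype.card_fun, Fintype.card_bool]
            push_cast
            ring
    have : Nonempty Ω := ⟨(fun _ _ _ => 0, fun _ _ => 0)⟩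
    have hne : (univ : Finset Ω).Nonempty := Finset.univ_nonempty
    obtain ⟨ω, -, hω⟩ := Finset.exists_le_of_sum_le hne hsum
    refine ⟨Q ω, hQ ω, fun S hS => ?_⟩
    refine le_trans ?_ hω
    have : S ⊆ univ.filter fun y => ¬ Q ω y = tru y := fun y hy =>
      Finset.mem_filter.2 ⟨Finset.mem_univ _, hS y hy⟩
    exact_mod_cast Finset.card_le_card this

theorem t_PP : Pool.Agent.W951.BP.S_PP := by
  classical
  intro p _ V I _ _ C h s ℓ ℓ₀ hℓ hℓ₀ hsm inp hinp
  have hp : 1 < p := (Fact.out : p.Prime).one_lt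
  have hp0 : (0 : ℝ) < p := by exact_mod_cast (by omega : 0 < p)
  obtain ⟨hC, hw, hs⟩ := hsm
  obtain ⟨Q, hQ, hS⟩ := pp_core C h ℓ ℓ₀ hℓ hℓ₀ hC hw inp hinp
  refine ⟨Q, hQ, (hS _ ?_).trans ?_⟩
  · intro y hy
    have h1 := (Finset.mem_filter.1 hy).2
    intro h2
    apply h1
    rw [h2]
    congr 1
    rw [Bool.eq_iff_iff, decide_eq_true_iff]
    exact (computes_iff C (fun i => inp i y) true).symm
  · have : (C.G : ℝ) ≤ s := by exact_mod_cast hs
    gcongr

end Pool.Agent.W397.BP
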